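import Pool.Agent.W2helper63.LL.Stm

/-! # Project LL, piece MOD -/

set_option autoImplicit false

noncomputable section

namespace Pool.Agent.W2helper59.LL

open Pool.Agent.W2helper63.LL
open IsDedekindDomain Polynomial Matrix WithZero
open scoped Classical

/-- the value of `phi0` as a function of the bottom row -/
def ph (c d : Kinf) : ℂ := if Valued.v c < Valued.v d then 1 else 0

theorem phi0_eq (g : GA) : phi0 g = ph (g.2.1 1 0) (g.2.1 1 1) := rfl

theorem phi0_mul_ri (g : GA) (h : GL (Fin 2) Kinf) : phi0 (g * ri h) =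
    ph (g.2.1 1 0 * h.1 0 0 + g.2.1 1 1 * h.1 1 0) (g.2.1 1 0 * h.1 0 1 + g.2.1 1 1 * h.1 1 1) := by
  rw [phi0_eq]
  have e : (g * ri h).2.1 = g.2.1 * h.1 := rfl
  rw [e, Matrix.mul_apply, Matrix.mul_apply, Fin.sum_univ_two, Fin.sum_univ_two]

theorem row_ne (g : GA) : g.2.1 1 0 ≠ 0 ∨ g.2.1 1 1 ≠ 0 := by
  by_contra h
  push Not at h
  have h1 : g.2.1.det = 0 := by
    rw [Matrix.det_fin_two, h.1, h.2]; ring
  have h2 : IsUnit g.2.1.det := by
    rw [← Matrix.isUnit_iff_isUnit_det]; exact g.2.isUnit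
  rw [h1] at h2
  exact not_isUnit_zero h2

theorem ph_scale (z c d : Kinf) (hz : z ≠ 0) : ph (z * c) (z * d) = ph c d := by
  unfold ph
  have hv : Valued.v z ≠ (0 : WithZero (Multiplicative ℤ)) := by simpa using hz
  simp only [map_mul]
  have : (Valued.v z * Valued.v c < Valued.v z * Valued.v d) ↔
      (Valued.v c : WithZero (Multiplicative ℤ)) < Valued.v d :=
    mul_lt_mul_iff_right₀ (zero_lt_iff.2 hv)
  simp only [this]

theorem iw_diag (i : GL (Fin 2) Kinf) (hi : Iw i) :
    Valued.v (i.1 0 0) = 1 ∧ Valued.v (i.1 1 1) = 1 := by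
  obtain ⟨hI, h10⟩ := hi
  have hle : ∀ a b, Valued.v (i.1 a b) ≤ 1 := fun a b => (hI a b).1
  have hle' : ∀ a b, Valued.v (i⁻¹.1 a b) ≤ 1 := fun a b => (hI a b).2
  have d1 : Valued.v i.1.det ≤ 1 := by
    rw [Matrix.det_fin_two]
    refine (Valuation.map_sub _ _ _).trans (max_le ?_ ?_)
    · rw [map_mul]; exact mul_le_one' (hle _ _) (hle _ _)
    · rw [map_mul]; exact mul_le_one' (hle _ _) (hle _ _)
  have d2 : Valued.v i⁻¹.1.det ≤ 1 := by
    rw [Matrix.det_fin_two]
    refine (Valuation.map_sub _ _ _).trans (max_le ?_ ?_)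
    · rw [map_mul]; exact mul_le_one' (hle' _ _) (hle' _ _)
    · rw [map_mul]; exact mul_le_one' (hle' _ _) (hle' _ _)
  have d3 : i.1.det * i⁻¹.1.det = 1 := by
    rw [← Matrix.det_mul]
    have : i.1 * i⁻¹.1 = 1 := i.mul_inv
    rw [this, Matrix.det_one]
  have d4 : Valued.v i.1.det = 1 := by
    have h5 : Valued.v i.1.det * Valued.v i⁻¹.1.det = 1 := by rw [← map_mul, d3, map_one]
    refine le_antisymm d1 ?_
    calc (1 : WithZero (Multiplicative ℤ)) = Valued.v i.1.det * Valued.v i⁻¹.1.det := h5.symm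
      _ ≤ Valued.v i.1.det * 1 := mul_le_mul_right d2 _
      _ = _ := mul_one _
  have d5 : Valued.v (i.1 0 1 * i.1 1 0) < 1 := by
    rw [map_mul]
    calc Valued.v (i.1 0 1) * Valued.v (i.1 1 0) ≤ 1 * Valued.v (i.1 1 0) :=
          mul_le_mul_left (hle _ _) _
      _ = Valued.v (i.1 1 0) := one_mul _
      _ < 1 := h10
  have d6 : Valued.v (i.1 0 0 * i.1 1 1) = 1 := by
    have e : i.1 0 0 * i.1 1 1 = i.1.det + i.1 0 1 * i.1 1 0 := by
      rw [Matrix.det_fin_two]; ring
    rw [e, Valuation.map_add_eq_of_lt_left, d4]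
    rw [d4]; exact d5
  rw [map_mul] at d6
  constructor
  · refine le_antisymm (hle _ _) ?_
    calc (1 : WithZero (Multiplicative ℤ)) = Valued.v (i.1 0 0) * Valued.v (i.1 1 1) := d6.symm
      _ ≤ Valued.v (i.1 0 0) * 1 := mul_le_mul_right (hle _ _) _
      _ = _ := mul_one _
  · refine le_antisymm (hle _ _) ?_
    calc (1 : WithZero (Multiplicative ℤ)) = Valued.v (i.1 0 0) * Valued.v (i.1 1 1) := d6.symm
      _ ≤ 1 * Valued.v (i.1 1 1) := mul_le_mul_left (hle _ _) _
      _ = _ := one_mul _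

theorem ph_iw (c d : Kinf) (i : GL (Fin 2) Kinf) (hi : Iw i) :
    ph (c * i.1 0 0 + d * i.1 1 0) (c * i.1 0 1 + d * i.1 1 1) = ph c d := by
  obtain ⟨h00, h11⟩ := iw_diag i hi
  obtain ⟨hI, h10⟩ := hi
  have h01 : Valued.v (i.1 0 1) ≤ 1 := (hI 0 1).1
  unfold ph
  have key : (Valued.v (c * i.1 0 0 + d * i.1 1 0) < Valued.v (c * i.1 0 1 + d * i.1 1 1)) ↔
      Valued.v c < Valued.v d := by
    constructor
    · intro h
      by_contra hn
      rw [not_lt] at hn
      rw [← not_le] at h
      apply h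
      have e1 : Valued.v (c * i.1 0 1 + d * i.1 1 1) ≤ Valued.v c := by
        refine (Valuation.map_add _ _ _).trans (max_le ?_ ?_)
        · rw [map_mul]
          calc Valued.v c * Valued.v (i.1 0 1) ≤ Valued.v c * 1 := mul_le_mul_right h01 _
            _ = _ := mul_one _
        · rw [map_mul, h11, mul_one]; exact hn
      refine e1.trans ?_
      rcases eq_or_ne c 0 with hc | hc
      · rw [hc, map_zero]; exact zero_le
      · have hvc : (0 : WithZero (Multiplicative ℤ)) < Valued.v c := zero_lt_iff.2 (by simpa using hc)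
        have e2 : Valued.v (d * i.1 1 0) < Valued.v (c * i.1 0 0) := by
          rw [map_mul, map_mul, h00, mul_one]
          calc Valued.v d * Valued.v (i.1 1 0) ≤ Valued.v c * Valued.v (i.1 1 0) :=
                mul_le_mul_left hn _
            _ < Valued.v c * 1 := by
                exact (mul_lt_mul_iff_right₀ hvc).2 h10
            _ = _ := mul_one _
        rw [Valuation.map_add_eq_of_lt_left _ e2, map_mul, h00, mul_one]
    · intro h
      have hvd : (0 : WithZero (Multiplicative ℤ)) < Valued.v d := lt_of_le_of_lt zero_le h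
      have e1 : Valued.v (c * i.1 0 0 + d * i.1 1 0) < Valued.v d := by
        refine lt_of_le_of_lt (Valuation.map_add _ _ _) (max_lt ?_ ?_)
        · rw [map_mul, h00, mul_one]; exact h
        · rw [map_mul]
          calc Valued.v d * Valued.v (i.1 1 0) < Valued.v d * 1 :=
                (mul_lt_mul_iff_right₀ hvd).2 h10
            _ = _ := mul_one _
      have e2 : Valued.v (c * i.1 0 1) < Valued.v (d * i.1 1 1) := by
        rw [map_mul, map_mul, h11, mul_one]
        calc Valued.v c * Valued.v (i.1 0 1) ≤ Valued.v c * 1 := mul_le_mul_right h01 _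
          _ = Valued.v c := mul_one _
          _ < _ := h
      rw [Valuation.map_add_eq_of_lt_right _ e2, map_mul, h11, mul_one]
      exact e1
  simp only [key]

theorem one_mem_consts : (fun _ : GA => (1 : ℂ)) ∈ consts :=
  Submodule.subset_span rfl

theorem ww_lt (fri : Res2 Kinf pinf) (c d : Kinf) (h : c ≠ 0 ∨ d ≠ 0) :
    (Valued.v (d * (pinf : Kinf)) < Valued.v c) ↔ ¬ (Valued.v c < Valued.v d) := by
  rw [not_lt, map_mul, fri.val]
  rcases eq_or_ne d 0 with hd | hd
  · subst hd
    have hc : c ≠ 0 := by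
      rcases h with h | h
      · exact h
      · exact absurd rfl h
    have hvc : (0 : WithZero (Multiplicative ℤ)) < Valued.v c := zero_lt_iff.2 (by simpa using hc)
    simp only [map_zero, zero_mul]
    exact ⟨fun _ => hvc.le, fun _ => hvc⟩
  · have hvd : Valued.v d ≠ (0 : WithZero (Multiplicative ℤ)) := by simpa using hd
    rcases eq_or_ne c 0 with hc | hc
    · subst hc
      simp only [map_zero, not_lt_zero, nonpos_iff_eq_zero, hvd]
    · have hvc : Valued.v c ≠ (0 : WithZero (Multiplicative ℤ)) := by simpa using hc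
      have e1 : Valued.v d = exp (log (Valued.v d)) := (exp_log hvd).symm
      have e2 : Valued.v c = exp (log (Valued.v c)) := (exp_log hvc).symm
      rw [e1, e2, ← exp_add, exp_lt_exp, exp_le_exp]

      omega

theorem mod : S_MOD := by
  intro fri op
  refine ⟨⟨?_, ?_⟩, ?_, ?_, ?_, ?_, ?_, ?_⟩
  · obtain ⟨H, hH, hi⟩ := op.2
    refine ⟨(⊤ : Subgroup (GL (Fin 2) Af)).prod H, ?_, ?_⟩
    · rw [Subgroup.coe_prod]
      exact isOpen_univ.prod hH
    · rintro g u hu
      have hu2 : u.2 ∈ H := hu.2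
      have e : (g * u).2 = (g * ri u.2).2 := rfl
      have e' : phi0 (g * u) = phi0 (g * ri u.2) := by rw [phi0_eq, phi0_eq, e]
      rw [e', phi0_mul_ri, ph_iw _ _ _ (hi _ hu2), phi0_eq]
  · intro a x d g
    have e : (borA a x d * g).2.1 = (bor a.2 x.2 d.2).1 * g.2.1 := rfl
    rw [phi0_eq, e, Matrix.mul_apply, Matrix.mul_apply, Fin.sum_univ_two, Fin.sum_univ_two]
    have e10 : (bor a.2 x.2 d.2).1 1 0 = 0 := rfl
    have e11 : (bor a.2 x.2 d.2).1 1 1 = (d.2 : Kinf) := rfl
    rw [e10, e11, zero_mul, zero_mul, zero_add, zero_add, ph_scale _ _ _ d.2.ne_zero, phi0_eq]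
    simp [h1]
  · intro g hg
    ext x
    show phi0 (x * g) = phi0 x
    have e : (x * g).2 = x.2 := by
      show x.2 * g.2 = x.2
      rw [hg, mul_one]
    rw [phi0_eq, phi0_eq, e]
  · intro h
    unfold consts at h
    rw [Submodule.mem_span_singleton] at h
    obtain ⟨c, hc⟩ := h
    have h1 := congrFun hc 1
    have h2 := congrFun hc (ri sw)
    have e1 : phi0 1 = 1 := by
      rw [phi0_eq]
      have a1 : (1 : GA).2.1 1 0 = 0 := rfl
      have a2 : (1 : GA).2.1 1 1 = 1 := rfl
      rw [a1, a2]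
      unfold ph
      simp
    have e2 : phi0 (ri sw) = 0 := by
      rw [phi0_eq]
      have a1 : (ri sw).2.1 1 0 = 1 := rfl
      have a2 : (ri sw).2.1 1 1 = 0 := rfl
      rw [a1, a2]
      unfold ph
      simp
    rw [e1] at h1
    rw [e2] at h2
    simp only [Pi.smul_apply, smul_eq_mul, mul_one] at h1 h2
    rw [h1] at h2
    exact one_ne_zero h2
  · intro i hi
    ext g
    show phi0 (g * ri i) = phi0 g
    rw [phi0_mul_ri, ph_iw _ _ _ hi, phi0_eq]
  · have e : rt (ri (ww pinf)) phi0 + phi0 = fun _ => 1 := by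
      ext g
      show phi0 (g * ri (ww pinf)) + phi0 g = 1
      rw [phi0_mul_ri, phi0_eq]
      have a1 : (ww pinf).1 0 0 = 0 := rfl
      have a2 : (ww pinf).1 0 1 = 1 := rfl
      have a3 : (ww pinf).1 1 0 = (pinf : Kinf) := rfl
      have a4 : (ww pinf).1 1 1 = 0 := rfl
      rw [a1, a2, a3, a4]
      simp only [mul_zero, mul_one, zero_add, add_zero]
      unfold ph
      have key := ww_lt fri (g.2.1 1 0) (g.2.1 1 1) (row_ne g)
      by_cases h : Valued.v (g.2.1 1 0) < Valued.v (g.2.1 1 1)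
      · have h' : ¬ (Valued.v (g.2.1 1 1 * (pinf : Kinf)) < Valued.v (g.2.1 1 0)) := by
          rw [key]; exact not_not.2 h
        rw [if_pos h, if_neg h', zero_add]
      · rw [if_neg h, if_pos (key.2 h), add_zero]
    rw [e]
    exact one_mem_consts
  · have e : phi0 + rt (ri sw) phi0 + rt (ri (nu 1 * sw)) phi0 = fun _ => 1 := by
      ext g
      show phi0 g + phi0 (g * ri sw) + phi0 (g * ri (nu 1 * sw)) = 1
      rw [phi0_mul_ri, phi0_mul_ri, phi0_eq]
      have m : ((nu (1 : Kinf)) * sw : GL (Fin 2) Kinf).1 = !![1, 1; 1, 0] := by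
        show !![(1 : Kinf), 1; 0, 1] * !![0, 1; 1, 0] = _
        ext i j
        fin_cases i <;> fin_cases j <;> simp [Matrix.mul_apply, Fin.sum_univ_two]
      have a1 : (sw : GL (Fin 2) Kinf).1 0 0 = 0 := rfl
      have a2 : (sw : GL (Fin 2) Kinf).1 0 1 = 1 := rfl
      have a3 : (sw : GL (Fin 2) Kinf).1 1 0 = 1 := rfl
      have a4 : (sw : GL (Fin 2) Kinf).1 1 1 = 0 := rfl
      have b1 : ((nu (1 : Kinf)) * sw : GL (Fin 2) Kinf).1 0 0 = 1 := by rw [m]; rfl
      have b2 : ((nu (1 : Kinf)) * sw : GL (Fin 2) Kinf).1 0 1 = 1 := by rw [m]; rfl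
      have b3 : ((nu (1 : Kinf)) * sw : GL (Fin 2) Kinf).1 1 0 = 1 := by rw [m]; rfl
      have b4 : ((nu (1 : Kinf)) * sw : GL (Fin 2) Kinf).1 1 1 = 0 := by rw [m]; rfl
      rw [a1, a2, a3, a4, b1, b2, b3, b4]
      simp only [mul_zero, mul_one, zero_add, add_zero]
      have hne := row_ne g
      generalize g.2.1 1 0 = c at hne ⊢
      generalize g.2.1 1 1 = d at hne ⊢
      unfold ph
      rcases lt_trichotomy (Valued.v c : WithZero (Multiplicative ℤ)) (Valued.v d) with h | h | h
      · have h3 : ¬ (Valued.v (c + d) < Valued.v c) := by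
          rw [Valuation.map_add_eq_of_lt_right _ h]; exact h.not_gt
        rw [if_pos h, if_neg h.not_gt, if_neg h3]; norm_num
      · have hc : c ≠ 0 := by
          intro hc
          rw [hc, map_zero] at h
          have hd : d = 0 := by
            have := h.symm
            simpa using this
          rcases hne with h' | h'
          · exact h' hc
          · exact h' hd
        have hvc : (0 : WithZero (Multiplicative ℤ)) < Valued.v c :=
          zero_lt_iff.2 (by simpa using hc)
        have h4 := fri.two 1 (d / c) (map_one _) (by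
          rw [map_div₀, ← h, div_self hvc.ne'])
        have h3 : Valued.v (c + d) < Valued.v c := by
          have e : c + d = c * (1 + d / c) := by field_simp
          rw [e, map_mul]
          calc Valued.v c * Valued.v (1 + d / c) < Valued.v c * 1 :=
                (mul_lt_mul_iff_right₀ hvc).2 h4
            _ = _ := mul_one _
        rw [if_neg h.not_lt, if_neg h.not_gt, if_pos h3]; norm_num
      · have h3 : ¬ (Valued.v (c + d) < Valued.v c) := by
          rw [Valuation.map_add_eq_of_lt_left _ h]; exact lt_irrefl _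
        rw [if_neg h.not_gt, if_pos h, if_neg h3]; norm_num
    rw [e]
    exact one_mem_consts
  · intro z
    ext g
    show phi0 (g * ri (bor z 0 z)) = phi0 g
    rw [phi0_mul_ri]
    have a1 : (bor z 0 z : GL (Fin 2) Kinf).1 0 0 = (z : Kinf) := rfl
    have a2 : (bor z 0 z : GL (Fin 2) Kinf).1 0 1 = 0 := rfl
    have a3 : (bor z 0 z : GL (Fin 2) Kinf).1 1 0 = 0 := rfl
    have a4 : (bor z 0 z : GL (Fin 2) Kinf).1 1 1 = (z : Kinf) := rfl
    rw [a1, a2, a3, a4]
    simp only [mul_zero, zero_add, add_zero]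
    rw [mul_comm _ (z : Kinf), mul_comm _ (z : Kinf), ph_scale _ _ _ z.ne_zero, phi0_eq]

end Pool.Agent.W2helper59.LL
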